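import Pool.Agent.H45.SE.TarT

/-! # TGc: the rules are preserved by isomorphisms -/

set_option linter.unusedVariables false

open Ordinal Order Set
open scoped ZFSet

namespace SE

open SF

theorem pf_TGc (hBA : T_BA) (hBBa : T_BBa) (hBJ : T_BJ) (hBK : T_BK) (hBL : T_BL) (hTBb : T_TBb)
    (hTCa : T_TCa) (hTCb : T_TCb) (hTCd : T_TCd) (hTF : T_TF) : T_TGc := by
  intro D hD hTab k hSi π ρ ρ' p hI hZ hkρ hId G hG hp i hi hki
  obtain ⟨-, hHt, hHN, -, hmain⟩ := hBJ D hD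
  have kN : ZFm D.N := hD.zfc.toZFCm.toZFm
  have hρN : D.N ρ := hHN _ hI.h
  obtain ⟨hTρ, hBA2, -⟩ := hBA.2.2.2.2.2.2 D.L ρ hI.c
  obtain ⟨hiL, hsρ, hci, -, -⟩ := hBA2 i hi
  obtain ⟨hkL, -, hck, hck', -⟩ := hBA2 k hkρ
  have hiN : D.N i := kN.trans ρ hρN i hi
  have hkN : D.N k := kN.trans ρ hρN k hkρ
  have nS' : ∀ x, D.N x → D.N (lS x) := fun x hx => hBBa.2.2.2.2.1.1 D.N kN (fun _ => x) fun _ => hx
  have nZ : ∀ x, D.N x → D.N (lZ x) := fun x hx =>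
    hBBa.2.2.2.2.2.2.1.1 D.N kN (fun _ => x) fun _ => hx
  have nA : ∀ x, D.N x → D.N (lA x) := fun x hx =>
    hBBa.2.2.2.2.2.2.2.1.1 D.N kN (fun _ => x) fun _ => hx
  have nB : ∀ x, D.N x → D.N (lB x) := fun x hx =>
    hBBa.2.2.2.2.2.2.2.2.1.1 D.N kN (fun _ => x) fun _ => hx
  have hTs : Tr (lS i) := hiL.tr
  have hTk : Tr (lS k) := hkL.tr
  have hkT : lS k ⊆ lS i := hTs k hki
  have hkI : insert k (lS k) ⊆ lS i := by
    intro x hx
    rcases ZFSet.mem_insert_iff.1 hx with h | h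
    · rw [h]
      exact hki
    · exact hkT h
  have hTk' : Tr (insert k (lS k)) := (hBA.2.2.2.2.2.2 D.L _ hck').1
  have hkN' : D.N (insert k (lS k)) := by
    have h1 : Tm ZFm (fun _ v => insert (v 0) (lS (v 0))) :=
      Tm.ins (Tm.var 0) hBBa.2.2.2.2.1
    exact h1.1 D.N kN (fun _ => k) fun _ => hkN
  -- the restriction to `s = lS i`
  have hsup : lS (app π i) = im π (lS i) := hI.i.sup i hi
  obtain ⟨hIs, hap, hZs, hGs, -⟩ := hTCd D hD π ρ ρ' p hI (lS i) (nS' i hiN) hsρ hTs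
  obtain ⟨hps, hge⟩ := hGs G hG hp
  obtain ⟨-, hBL2⟩ := hBL D hD ρ G hρN hI.c hG
  obtain ⟨hGnS, -⟩ := hBL2 (lS i) (nS' i hiN) hsρ hTs
  rw [hsup, hge]
  set πs := rst (lS i) π with hπs
  set ps := rst (lS i) p with hpss
  set Gi := gs G (lS i) with hGi
  have hZs' := hZs hZ
  obtain ⟨-, hCa⟩ := hTCa D hD πs (lS i) (im π (lS i)) ps hIs
  obtain ⟨hGn', -, -, hWW, -⟩ := hCa Gi hGnS hps
  obtain ⟨hb1, -, hb3⟩ := hTCb D hD πs (lS i) (im π (lS i)) ps hIs Gi hGnS hps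
  set Gi' := gp D.L πs ps (im π (lS i)) Gi with hGi'
  -- values at `k`
  have hIdk : app πs k = k := by
    rw [hap k hki]
    exact hId k (ZFSet.mem_insert k (lS k))
  have hcg : cg Gi' k = cg Gi k := by
    have h := (hb1 k hki).1
    rwa [hIdk] at h
  have hId1 : Idn πs (insert k (lS k)) := by
    intro x hx
    rw [hap x (hkI hx)]
    exact hId x hx
  have hId2 : Idn πs (lS k) := fun x hx => hId1 x (ZFSet.mem_insert_of_mem _ hx)
  obtain ⟨-, -, hgk, hevk⟩ := hb3 (lS k) (nS' k hkN) hkT hTk hId2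
  obtain ⟨-, -, hgk', -⟩ := hb3 (insert k (lS k)) hkN' hkI hTk' hId1
  have hA : ev Gi' (lA k) = ev Gi (lA k) := hevk _ (nA k hkN) hkL.a
  have hB : ev Gi' (lB k) = ev Gi (lB k) := hevk _ (nB k hkN) hkL.b
  -- the promise
  have hZv : ev Gi' (lZ (app π i)) = ev Gi (lZ i) := by
    obtain ⟨hc1, -, -⟩ := hTCb D hD π ρ ρ' p hI G hG hp
    have e1 := (hc1 i hi).2.2 hZ
    obtain ⟨-, hCa0⟩ := hTCa D hD π ρ ρ' p hI
    obtain ⟨hGn0, -⟩ := hCa0 G hG hp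
    have hi' : app π i ∈ ρ' := (hTBb D.L π ρ ρ' p hI.c hI.c' hI.i).2.1 i hi
    obtain ⟨-, hBA2', -⟩ := hBA.2.2.2.2.2.2 D.L ρ' hI.c'
    obtain ⟨hiL', hsρ', -, -, -⟩ := hBA2' _ hi'
    have hi'N : D.N (app π i) := kN.trans ρ' (hHN _ hI.h') _ hi'
    have e2 := ((hBK D hD ρ' _ (hHN _ hI.h') hI.c' hGn0).1 (lS (app π i)) (lZ (app π i))
      (nS' _ hi'N) hsρ' hiL'.tr (nZ _ hi'N) hiL'.z).2.2.2.2.2 (lS (app π i)) fun _ h => h
    have e3 := ((hBK D hD ρ G hρN hI.c hG).1 (lS i) (lZ i)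
      (nS' _ hiN) hsρ hTs (nZ _ hiN) hiL.z).2.2.2.2.2 (lS i) fun _ h => h
    rw [hsup, hge] at e2
    rw [e2, e1, ← e3]
  -- the relations
  have hUnk : D.Unk k Gi' ↔ D.Unk k Gi := by
    unfold Cx.Unk
    rw [hgk]
  have hBeta : D.Beta k Gi' ↔ D.Beta k Gi := by
    unfold Cx.Beta
    rw [hgk']
  have hSide : ∀ y, D.Side k (lS i) Gi y ↔ D.Side k (im π (lS i)) Gi' y :=
    hSi πs (lS i) (im π (lS i)) ps hIs hZs' hki hId1 Gi hGnS hps
  have hSec : ∀ a y, D.SecS (im π (lS i)) Gi' a y ↔ D.SecS (lS i) Gi a y :=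
    (hTF D hD πs (lS i) (im π (lS i)) ps hIs hZs' Gi hGnS hps).2
  constructor
  · intro h
    refine ⟨?_, ?_, ?_, ?_⟩
    · intro a b y hy hR hz
      rw [hsup, ← hSide y]
      rw [hZv, hcg] at hz
      exact h.r0 a (hUnk.1 b) y ((hWW y).1 hy) hR hz
    · intro a b y hy hR hz
      rw [hsup, ← hSide y]
      rw [hZv, hcg] at hz
      exact h.r1 a (hUnk.1 b) y ((hWW y).1 hy) hR hz
    · intro a hz
      rw [hZv, hcg] at hz
      obtain ⟨h1, h2⟩ := h.r2 a hz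
      rw [hsup, hSec, hB, hcg]
      exact ⟨hBeta.2 h1, h2⟩
    · intro a hz
      rw [hZv, hcg] at hz
      obtain ⟨h1, h2⟩ := h.r3 a hz
      rw [hsup, hSec, hA, hcg]
      exact ⟨fun h3 => h1 (hBeta.1 h3), h2⟩
  · intro h
    refine ⟨?_, ?_, ?_, ?_⟩
    · intro a b y hy hR hz
      rw [← hZv, ← hcg] at hz
      have h1 := h.r0 a (hUnk.2 b) y ((hWW y).2 hy) hR hz
      rw [hsup] at h1
      exact (hSide y).2 h1
    · intro a b y hy hR hz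
      rw [← hZv, ← hcg] at hz
      have h1 := h.r1 a (hUnk.2 b) y ((hWW y).2 hy) hR hz
      rw [hsup] at h1
      exact fun h2 => h1 ((hSide y).1 h2)
    · intro a hz
      rw [← hZv, ← hcg] at hz
      obtain ⟨h1, h2⟩ := h.r2 a hz
      rw [hsup, hSec, hB, hcg] at h2
      exact ⟨hBeta.1 h1, h2⟩
    · intro a hz
      rw [← hZv, ← hcg] at hz
      obtain ⟨h1, h2⟩ := h.r3 a hz
      rw [hsup, hSec, hA, hcg] at h2
      exact ⟨fun h3 => h1 (hBeta.2 h3), h2⟩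

end SE
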