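import Pool.Agent.H45.SE.TarT

/-! # THb: copies which respect promises are legal -/

set_option linter.unusedVariables false

open Ordinal Order Set
open scoped ZFSet

namespace SE

open SF

theorem pf_THb (hBA : T_BA) (hBBa : T_BBa) (hBD : T_BD) (hBJ : T_BJ) (hBK : T_BK) (hBL : T_BL)
    (hBO : T_BO) (hBR : T_BR) (hTBa : T_TBa) (hTBc : T_TBc) (hTCa : T_TCa) (hTCb : T_TCb)
    (hTEc : T_TEc) (hTHa : T_THa) (hTHd : T_THd) (hZA : T_ZA) : T_THb := by
  intro D hF s hs hsL hTs ρ' hρ' hc' hsρ' p' hp' hR g hg hfr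
  have hD : D.Ok := hF.ok
  obtain ⟨-, hHt, hHN, -, hmain⟩ := hBJ D hD
  have kN : ZFm D.N := hD.zfc.toZFCm.toZFm
  obtain ⟨-, hCL, hleg, -, -⟩ := hZA D hF
  have hcs : Cld D.L s := (hBA.2.2.2.2.2.2 D.L D.Lam hCL).2.2 s hsL hTs
  have hprs : rst s p' ∈ D.P s := (hBD.2.2.1 D.L ρ' s p' hp' fun i hi _ => hTs i hi).1
  have hIN := (hTBc D hD s hs hcs (rst s p') hprs).1
  have hidn := (hTBc D hD s hs hcs (rst s p') hprs).2.2.1
  have hpd : D.Cpd g (idm s) s s (rst s p') ρ' p' ∅ :=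
    { i := hIN
      h := hρ'
      c := hc'
      sub := hsρ'
      p := hp'
      le := (hBD.2.2.2.1 D.L s _ hprs).1
      gH := hg
      fre := hfr
      fl := by
        have h0 := (hBR D hD).2.2.2.2.2.2.2.2.2 0
        rwa [nS_zero] at h0 }
  obtain ⟨hI, hsρ1, hap0, -, hsplit, hcomp⟩ := hTEc D hD g (idm s) s s (rst s p') ρ' p' ∅ hpd _ _
    rfl rfl
  have hHa := hTHa D hD g (idm s) s s (rst s p') ρ' p' ∅ hpd _ _ rfl rfl
  set π := cpm D.L g (idm s) s p' ∅ ρ' with hπ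
  set ρ1 := cpi D.L g (idm s) s p' ∅ ρ' with hρ1
  have hap : ∀ i ∈ s, app π i = i := fun i hi => by rw [hap0 i hi, hidn i hi]
  obtain ⟨hTρ1, hBA1, -⟩ := hBA.2.2.2.2.2.2 D.L ρ1 hI.c'
  obtain ⟨hTρ', hBA', -⟩ := hBA.2.2.2.2.2.2 D.L ρ' hI.c
  have hρ1N : D.N ρ1 := hHN _ hI.h'
  have hρ'N : D.N ρ' := hHN _ hI.h
  have nS' : ∀ x, D.N x → D.N (lS x) := fun x hx => hBBa.2.2.2.2.1.1 D.N kN (fun _ => x) fun _ => hx
  have nY : ∀ x, D.N x → D.N (lY x) := fun x hx =>
    hBBa.2.2.2.2.2.1.1 D.N kN (fun _ => x) fun _ => hx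
  have nZ : ∀ x, D.N x → D.N (lZ x) := fun x hx =>
    hBBa.2.2.2.2.2.2.1.1 D.N kN (fun _ => x) fun _ => hx
  have key : ∀ j ∈ ρ1, D.Leg j := by
    intro j hj
    by_cases hjs : j ∈ s
    · exact hleg j (hsL hjs)
    obtain ⟨l, hl, hls, rfl⟩ := hsplit j hj hjs
    obtain ⟨hjL, hjsub, hcj, -, -⟩ := hBA1 _ hj
    have hjN : D.N (app π l) := kN.trans ρ1 hρ1N _ hj
    obtain ⟨-, -, -, hlSj, -, hlZj, -⟩ := hcomp l hl hls
    refine { h := hHt _ hI.h' hj, l := hjL, c := hcj, y := ?_, o := ?_ }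
    · intro G hG
      obtain ⟨-, hHa2⟩ := hHa l hl hls G hG
      rcases hHa2 with ⟨h1, -⟩ | ⟨G1, hG1, hpG1, hgs⟩
      · exact (hTHd D hD (app π l) G hjN hjL hcj hG).1 h1
      · rintro ⟨j', hj', hne, hx⟩
        rw [hlSj] at hj'
        obtain ⟨l', hl', hjl'⟩ := (hTBa.2.1 π (lS l) j').1 hj'
        have hl'ρ : l' ∈ ρ' := hTρ' l hl hl'
        have hj'S : j' ∈ lS (app π l) := by
          rw [hlSj]
          exact hj'
        have hj'ρ : j' ∈ ρ1 := hjsub hj'S
        obtain ⟨hj'L, hj'sub, hcj', -, -⟩ := hBA1 _ hj'ρ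
        have hj'N : D.N j' := kN.trans ρ1 hρ1N _ hj'ρ
        have hSj : D.N (lS (app π l)) := nS' _ hjN
        have hsubS : lS j' ⊆ lS (app π l) := hjL.tr j' hj'S
        by_cases hl's : l' ∈ s
        · -- the label is in `s`
          have hj'e : j' = l' := by rw [← hjl', hap l' hl's]
          obtain ⟨-, hGn1'⟩ := hTCa D hD π ρ' ρ1 p' hI
          obtain ⟨hGn1, -⟩ := hGn1' G1 hG1 hpG1
          obtain ⟨hb1, -, hb3⟩ := hTCb D hD π ρ' ρ1 p' hI G1 hG1 hpG1
          obtain ⟨hK1, hK2⟩ := hBK D hD ρ1 _ hρ1N hI.c' hGn1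
          -- the coded real
          have e1 : ev G (lY (app π l)) = ev G1 (lY l) := by
            have h1 := (hK1 (lS (app π l)) (lY (app π l)) hSj hjsub hjL.tr (nY _ hjN)
              hjL.y).2.2.2.2.2 (lS (app π l)) fun _ h => h
            rw [hgs] at h1
            rw [h1, (hb1 l hl).2.1]
          -- the promised real
          have e2 : ev G (lZ j') = ev G1 (lZ j') := by
            have h1 := (hK1 (lS j') (lZ j') (nS' _ hj'N) hj'sub hj'L.tr (nZ _ hj'N)
              hj'L.z).2.2.2.2.2 (lS (app π l)) hsubS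
            rw [hgs] at h1
            have hss : lS j' ⊆ s := by
              rw [hj'e]
              exact hTs l' hl's
            have hId : Idn π (lS j') := fun i hi => hap i (hss hi)
            have h2 := (hb3 (lS j') (nS' _ hj'N) (fun _ h => hsρ' (hss h)) hj'L.tr hId).2.2.2
              (lZ j') (nZ _ hj'N) hj'L.z
            rw [h1, h2]
          have e3 : cg G j' = cg G1 j' := by
            have h1 := (hK2 j' hj'ρ).2.2.1 (lS (app π l)) hjL.tr hj'S
            rw [hgs] at h1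
            have h2 := (hb1 l' hl'ρ).1
            rw [hjl'] at h2
            rw [h1, h2, hj'e]
          refine hR G1 hG1 hpG1 l hl ⟨j', ?_, ?_, ?_⟩
          · rw [hj'e]
            exact hl's
          · rw [← e2]
            exact hne
          · rw [← e1, ← e2, ← e3]
            exact hx
        · -- the promise is trivial
          obtain ⟨-, -, -, hlSj', -, hlZj', -⟩ := hcomp l' hl'ρ hl's
          have hz := hlZj' rfl
          rw [hjl'] at hlSj' hz
          rw [← hlSj'] at hz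
          apply hne
          obtain ⟨-, hBL2⟩ := hBL D hD (lS (app π l)) G hSj hcj hG
          obtain ⟨hGn2, -⟩ := hBL2 (lS j') (nS' _ hj'N) hsubS hj'L.tr
          have h1 := ((hBK D hD (lS (app π l)) G hSj hcj hG).1 (lS j') (lZ j') (nS' _ hj'N)
            hsubS hj'L.tr (nZ _ hj'N) hj'L.z).2.2.2.2.2 (lS j') fun _ h => h
          rw [← h1, hz]
          exact ((hBO D hD (lS j') (nS' _ hj'N) hcj').2.2.2.1 0).2.2 _ hGn2
    · intro G hG k hk
      have hz : ev G (lZ (app π l)) = kc 0 := (hHa l hl hls G hG).1 rfl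
      exact (hTHd D hD (app π l) G hjN hjL hcj hG).2 k hk (Or.inl hz)
  intro j hj
  unfold Cx.Lam
  rw [ZFSet.mem_sep]
  exact ⟨hHt _ hI.h' hj, key j hj, fun j' hj' => key j' (hTρ1 j hj hj')⟩

end SE
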